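import Pool.Agent.P.MP_9957ef_pr.H.Low

/-! Transfer of the equivalence to an arbitrary probability space. -/

set_option autoImplicit false

noncomputable section

open MeasureTheory ProbabilityTheory Filter Topology

namespace Pool.Agent.P.MP_9957ef_pr

lemma bridge_det {e : Env} (he : ∀ z, 0 ≤ e z) (s : ℝ) (a b : ℤ) :
    L 0 (fun z => if z.1 = z.2 then s * e z else e z) (a, a) (b, b) -
      L 0 (fun z => if z.1 = z.2 then s * e (z.1, z.1 + 1) else e z) (a, a) (b, b) =
      T s a b e - T s a b (rs e) := by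
  have e1 : (fun z : Site => if z.1 = z.2 then s * e z else e z) = wt (cT s) e := by
    funext z
    unfold wt cT
    rw [abs_of_nonneg (he z)]
    split_ifs <;> simp
  have e2 : L 0 (fun z => if z.1 = z.2 then s * e (z.1, z.1 + 1) else e z) (a, a) (b, b) =
      L 0 (wt (cT s) (rs e)) (a, a) (b, b) := by
    refine L_congr fun z h1 _ => ?_
    have h2 := h1.2.2.2
    unfold wt cT rs
    by_cases hz : z.1 = z.2
    · simp only [if_pos hz, abs_of_nonneg (he _)]
    · simp only [if_neg hz, if_neg (show ¬ z.2 = z.1 + 1 by omega), abs_of_nonneg (he _), one_mul]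
  rw [e1, e2]
  rfl

theorem exact_range' (Ω : Type) [MeasurableSpace Ω] (P : Measure Ω) [IsProbabilityMeasure P]
    (E : ℤ × ℤ → Ω → ℝ) (hEm : ∀ z, Measurable (E z)) (hEi : iIndepFun E P)
    (hEl : ∀ z, Measure.map (E z) P = expMeasure 1) (α : ℕ → ℝ) (hα : ∀ n, 0 < α n) :
    Tendsto (fun n : ℕ => (∫⁻ ω, ENNReal.ofReal
        ((L 0 (fun z => if z.1 = z.2 then (α n)⁻¹ * E z ω else E z ω) (1, 1) (n, n) -
          L 0 (fun z => if z.1 = z.2 then (α n)⁻¹ * E (z.1, z.1 + 1) ω else E z ω)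
            (1, 1) (n, n)) ^ 2) ∂P) /
        ENNReal.ofReal (max (1 / 2 - α n) 0 * n + (n : ℝ) ^ ((2 : ℝ) / 3))) atTop (𝓝 0) ↔
      Tendsto (fun n : ℕ => max (1 / 2 - α n) 0) atTop (𝓝 0) := by
  have hΦm : Measurable (fun ω z => E z ω) := measurable_pi_lambda _ hEm
  have hlaw : P.map (fun ω z => E z ω) = mu := by
    rw [(iIndepFun_iff_map_fun_eq_infinitePi_map hEm).1 hEi]
    unfold mu ex
    simp only [hEl]
  have hnn : ∀ᵐ ω ∂P, ∀ z, 0 ≤ E z ω := by
    have h := ae_nonneg
    rw [← hlaw] at h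
    exact ae_of_ae_map hΦm.aemeasurable h
  have key : ∀ (s : ℝ) (n : ℤ), ∫⁻ ω, ENNReal.ofReal
        ((L 0 (fun z => if z.1 = z.2 then s * E z ω else E z ω) (1, 1) (n, n) -
          L 0 (fun z => if z.1 = z.2 then s * E (z.1, z.1 + 1) ω else E z ω)
            (1, 1) (n, n)) ^ 2) ∂P =
      ENNReal.ofReal (∫ e, (T s 1 n e - T s 1 n (rs e)) ^ 2 ∂mu) := fun s n => by
    have hd := (point_pg_T s 1 n).sub (Mt.pg_rs (point_pg_T s 1 n))
    have hi : Integrable (fun e => (T s 1 n e - T s 1 n (rs e)) ^ 2) mu := by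
      simpa only [sq] using (hd.mul hd).integrable
    rw [ofReal_integral_eq_lintegral_ofReal hi (ae_of_all _ fun _ => sq_nonneg _), ← hlaw,
      lintegral_map (hd.1.pow_const 2).ennreal_ofReal hΦm]
    refine lintegral_congr_ae ?_
    filter_upwards [hnn] with ω hω
    rw [← bridge_det (e := fun z => E z ω) hω s 1 n]
  rw [← exact_range α hα]
  simp only [key]
  have hev : ∀ᶠ n : ℕ in atTop, 0 < max (1 / 2 - α n) 0 * n + (n : ℝ) ^ ((2 : ℝ) / 3) := by
    filter_upwards [eventually_gt_atTop 0] with n hn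
    have : (0 : ℝ) < n := by exact_mod_cast hn
    have h2 := le_max_right (1 / 2 - α n) 0
    positivity
  set u : ℕ → ℝ := fun n => (∫ e, (T (α n)⁻¹ 1 n e - T (α n)⁻¹ 1 n (rs e)) ^ 2 ∂mu) /
      (max (1 / 2 - α n) 0 * n + (n : ℝ) ^ ((2 : ℝ) / 3)) with hu
  have hu0 : ∀ n, 0 ≤ u n := fun n => by
    have h2 := le_max_right (1 / 2 - α n) 0
    exact div_nonneg (integral_nonneg fun _ => sq_nonneg _) (by positivity)
  rw [tendsto_congr' (f₂ := fun n => ENNReal.ofReal (u n))
    (by filter_upwards [hev] with n hn; rw [hu, ENNReal.ofReal_div_of_pos hn])]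
  constructor
  · intro h
    have := (ENNReal.tendsto_toReal ENNReal.zero_ne_top).comp h
    simpa [Function.comp_def, ENNReal.toReal_ofReal (hu0 _)] using this
  · intro h
    simpa using ENNReal.tendsto_ofReal h

end Pool.Agent.P.MP_9957ef_pr
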