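import Pool.Agent.P.MP_9957ef_pr.H.Up
import Pool.Agent.P.MP_9957ef_pr.Mt

/-! Resampling the wall in the pinned phase: the lower bound and the equivalence. -/

set_option autoImplicit false

noncomputable section

open MeasureTheory ProbabilityTheory Finset Filter Topology

namespace Pool.Agent.P.MP_9957ef_pr

lemma T_convex' {l : ℤ} (hl : 1 ≤ l) (e : Env) {s s' a b : ℝ} (ha : 0 ≤ a) (hb : 0 ≤ b)
    (hab : a + b = 1) : T (a * s + b * s') 1 l e ≤ a * T s 1 l e + b * T s' 1 l e := by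
  obtain ⟨m, π, hp, he⟩ := exists_opt (k := 0) (a := (1, 1)) (b := (l, l))
    (wt (cT (a * s + b * s')) e) ⟨hl, hl, by simp, by simp⟩
  have h1 := mul_le_mul_of_nonneg_left (le_L (wt (cT s) e) hp) ha
  have h2 := mul_le_mul_of_nonneg_left (le_L (wt (cT s') e) hp) hb
  have h3 : pval (wt (cT (a * s + b * s')) e) m π =
      a * pval (wt (cT s) e) m π + b * pval (wt (cT s') e) m π := by
    simp only [pval, mul_sum, ← sum_add_distrib]
    refine sum_congr rfl fun n _ => ?_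
    unfold wt cT
    split_ifs
    · ring
    · linear_combination (-|e (π n)|) * hab
  unfold T
  rw [he]
  linarith

lemma convexOn_mean {l : ℤ} (hl : 1 ≤ l) : ConvexOn ℝ Set.univ fun s => ∫ e, T s 1 l e ∂mu := by
  refine ⟨convex_univ, fun s _ s' _ a b ha hb hab => ?_⟩
  simp only [smul_eq_mul]
  rw [← integral_const_mul, ← integral_const_mul, ← integral_add
    ((point_pg_T _ _ _).const_mul a).integrable ((point_pg_T _ _ _).const_mul b).integrable]
  exact integral_mono (point_pg_T _ _ _).integrable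
    (((point_pg_T _ _ _).const_mul a).add ((point_pg_T _ _ _).const_mul b)).integrable
    fun e => T_convex' hl e ha hb hab

lemma card_wall_le (l : ℤ) (hl : 1 ≤ l) : ((wall 1 l).card : ℝ) ≤ l := by
  have h1 : (wall 1 l).card ≤ (Icc 1 l).card := card_image_le
  have h2 : ((Icc 1 l).card : ℤ) = l := by rw [Int.card_Icc_of_le _ _ (by omega)]; ring
  have h3 : ((wall 1 l).card : ℤ) ≤ l := by omega
  exact_mod_cast h3

/-- a change of the wall rate is paid for by the resampling distance -/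
lemma lr_bound {s κ : ℝ} (hκ : 0 < κ) {l : ℤ} (hl : 1 ≤ l) (hκl : κ ^ 2 * l ≤ 1) :
    (∫ e, T s 1 l e ∂mu - ∫ e, T (s / (1 + κ)) 1 l e ∂mu) ^ 2 ≤
      3 * ∫ e, (T s 1 l e - T s 1 l (rs e)) ^ 2 ∂mu := by
  have hk : ∀ _ : Site, 0 ≤ κ := fun _ => hκ.le
  have hf := point_pg_T s 1 l
  have hg := Mt.pg_rs hf
  have hL := pg_LR (wall 1 l) (κ := fun _ => κ) hk
  have e1 : ∀ e, T s 1 l (tilt (wall 1 l) (fun _ => κ) e) = T (s / (1 + κ)) 1 l e := fun e => by
    refine L_congr fun z a1 a2 => ?_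
    unfold Adm at a1 a2
    simp only at a1 a2
    unfold wt cT tilt
    by_cases hz : z.1 = z.2
    · rw [if_pos hz, if_pos hz, if_pos (point_mem_wall.2 ⟨hz, by omega, by omega⟩), abs_div,
        abs_of_pos (show 0 < 1 + κ by linarith)]
      ring
    · rw [if_neg hz, if_neg hz, if_neg fun h => hz (point_mem_wall.1 h).1]
  have e2 := integral_tilt (wall 1 l) hk hf
  simp only [e1] at e2
  have e3 : ∫ e, LR (wall 1 l) (fun _ => κ) e ∂mu = 1 := by
    simpa using (integral_tilt (wall 1 l) hk (pg_const 1)).symm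
  have e4 : ∫ e, T s 1 l (rs e) ∂mu = ∫ e, T s 1 l e ∂mu := by
    conv_rhs => rw [← mp_rs.map_eq]
    rw [integral_map mp_rs.measurable.aemeasurable hf.1.aestronglyMeasurable]
  have e5 : ∫ e, LR (wall 1 l) (fun _ => κ) e * T s 1 l (rs e) ∂mu = ∫ e, T s 1 l e ∂mu := by
    rw [integral_mul_indep (S := (wall 1 l : Set Site)) hL hg, e3, one_mul, e4]
    · intro e e' h
      unfold LR
      exact prod_congr rfl fun z hz => by rw [h z (mem_coe.2 hz)]
    · intro e e' h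
      refine dependsOn_L (cT s) fun z hz => ?_
      obtain ⟨a1, a2, -⟩ := hz
      unfold Adm at a1 a2
      simp only at a1 a2
      unfold rs
      by_cases hz : z.1 = z.2
      · rw [if_pos hz, if_pos hz]
        exact h _ fun hc => by have := (point_mem_wall.1 (mem_coe.1 hc)).1; omega
      · rw [if_neg hz, if_neg hz, if_neg (by omega), if_neg (by omega)]
        exact h _ fun hc => hz (point_mem_wall.1 (mem_coe.1 hc)).1
  have e6 : ∫ e, LR (wall 1 l) (fun _ => κ) e ^ 2 ∂mu ≤ 3 := by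
    simp only [sq]
    rw [integral_LR_mul _ hk hk, prod_const]
    have a1 : 1 + κ * κ / (1 + κ + κ) ≤ Real.exp (κ ^ 2) := by
      have : κ * κ / (1 + κ + κ) ≤ κ ^ 2 := by
        rw [sq]; exact div_le_self (by positivity) (by linarith)
      linarith [Real.add_one_le_exp (κ ^ 2)]
    refine (pow_le_pow_left₀ (by positivity) a1 _).trans ?_
    rw [← Real.exp_nat_mul]
    have a2 : ((wall 1 l).card : ℝ) * κ ^ 2 ≤ 1 := by nlinarith [card_wall_le l hl, sq_nonneg κ]
    exact (Real.exp_le_exp.2 a2).trans (by linarith [Real.exp_one_lt_d9])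
  have e7 : ∫ e, T s 1 l e ∂mu - ∫ e, T (s / (1 + κ)) 1 l e ∂mu =
      ∫ e, LR (wall 1 l) (fun _ => κ) e * (T s 1 l (rs e) - T s 1 l e) ∂mu := by
    simp only [mul_sub]
    rw [integral_sub (hL.mul hg).integrable (hL.mul hf).integrable, e5, e2]
  have c1 := integral_mul_le_sqrt hL (hg.sub hf)
  have c2 := integral_mul_le_sqrt hL (hf.sub hg)
  have c3 : ∫ e, LR (wall 1 l) (fun _ => κ) e * (T s 1 l e - T s 1 l (rs e)) ∂mu =
      -∫ e, LR (wall 1 l) (fun _ => κ) e * (T s 1 l (rs e) - T s 1 l e) ∂mu := by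
    rw [← integral_neg]; congr 1; funext e; ring
  have c4 : ∫ e, (T s 1 l (rs e) - T s 1 l e) ^ 2 ∂mu =
      ∫ e, (T s 1 l e - T s 1 l (rs e)) ^ 2 ∂mu := by congr 1; funext e; ring
  rw [c4, ← e7] at c1
  rw [c3, ← e7] at c2
  have n1 : 0 ≤ ∫ e, (T s 1 l e - T s 1 l (rs e)) ^ 2 ∂mu := integral_nonneg fun _ => sq_nonneg _
  have n2 : 0 ≤ ∫ e, LR (wall 1 l) (fun _ => κ) e ^ 2 ∂mu := integral_nonneg fun _ => sq_nonneg _
  refine (sq_le_sq' (by linarith) c1).trans ?_
  rw [mul_pow, Real.sq_sqrt n1, Real.sq_sqrt n2]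
  gcongr

/-- mean passage time at a pinned wall -/
lemma mean_lower {x : ℝ} (x0 : 0 < x) (x1 : x ≤ 1 / 16) {l : ℤ} (hl : 1 ≤ l) :
    4 * (l : ℝ) + 2 * x ^ 2 * l - 3 - 2 / x ≤ ∫ e, T (q x) 1 l e ∂mu := by
  have hl1 : (1 : ℝ) ≤ l := by exact_mod_cast hl
  have hxa : |x| ≤ 1 / 8 := by rw [abs_of_pos x0]; linarith
  have h1 : Tail (fun e => 4 * (l : ℝ) + 2 * x ^ 2 * l - 3 - G 1 (q (-0)) (q x) (l, l) e)
      (1 / x) 1 := by
    intro t ht
    have hU := G_lower (x := x) (y := 0) (by linarith) (by norm_num) x0.le (X := 1)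
      (i := l) (j := l) (by norm_num) (by omega) (by omega)
      (4 * (l : ℝ) + 2 * x ^ 2 * l - 3 - t * (1 / x))
    have hA := (abs_le.1 (Lam_approx (p := (l : ℝ) - (1 : ℤ)) (j := l) (x := x) (y := 0)
      (by push_cast; linarith) (by linarith) hxa (by norm_num))).2
    refine le_trans (measureReal_mono fun e he => ?_) (hU.trans ?_)
    · have h1 : t * (1 / x) ≤ 4 * (l : ℝ) + 2 * x ^ 2 * l - 3 - G 1 (q (-0)) (q x) (l, l) e := he
      show _ ≤ 4 * (l : ℝ) + 2 * x ^ 2 * l - 3 - t * (1 / x)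
      linarith
    · rw [one_mul]
      apply Real.exp_le_exp.2
      push_cast at hA ⊢
      have c1 : x * (t * (1 / x)) = t := by field_simp
      have c2 : x ^ 4 * l ≤ 1 / 16 * (x ^ 3 * l) := by
        rw [show x ^ 4 * l = x * (x ^ 3 * l) by ring]; gcongr
      have c3 : x ^ 3 ≤ 1 / 16 * x := by nlinarith [mul_pos x0 x0]
      have c4 : 0 ≤ x ^ 3 * l := by positivity
      have c5 : 0 ≤ x ^ 4 := by positivity
      nlinarith [sq_nonneg x]
  have h2 : Tail (fun e => G 1 (q (-0)) (q x) (l, l) e - T (q x) 1 l e) (1 / x) 1 := by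
    intro t ht
    refine (gm x 0 (by linarith) (by norm_num) (by linarith) l hl (t * (1 / x))).trans ?_
    rw [one_mul, add_zero]
    exact le_of_eq (by congr 1; field_simp)
  have hG : PG fun e => G 1 (q (-0)) (q x) (l, l) e := pg_L _
  have hf := point_pg_T (q x) 1 l
  have p1 := (pg_const (4 * (l : ℝ) + 2 * x ^ 2 * l - 3)).sub hG
  have p2 := hG.sub hf
  have i1 := (integral_mono p1.integrable (p1.max (pg_const 0)).integrable
    fun e => le_max_left _ _).trans (h1.integral_pos (by positivity) p1)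
  have i2 := (integral_mono p2.integrable (p2.max (pg_const 0)).integrable
    fun e => le_max_left _ _).trans (h2.integral_pos (by positivity) p2)
  rw [integral_sub (integrable_const _) hG.integrable] at i1
  rw [integral_sub hG.integrable hf.integrable] at i2
  simp only [integral_const, probReal_univ, smul_eq_mul, one_mul] at i1 i2
  have : 2 / x = 1 / x + 1 / x := by ring
  linarith

lemma mean_upper {ν : ℝ} (hν : 8 ≤ ν) {l : ℤ} (hl : 1 ≤ l) (hl' : (l : ℝ) = ν ^ 3) :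
    ∫ e, T 2 1 l e ∂mu ≤ 4 * (l : ℝ) + Real.exp 104 * ν := by
  have h := tails_upper (C0 := 1) (M := 1) (ν := ν) (x := 0) le_rfl (by linarith) (by simp) hl
    (by linarith)
  have q0 : q 0 = 2 := by norm_num [q]
  rw [q0] at h
  have hf := point_pg_T 2 1 l
  have p1 := hf.sub (pg_const (4 * (l : ℝ)))
  have i1 := (integral_mono p1.integrable (p1.max (pg_const 0)).integrable
    fun e => le_max_left _ _).trans (h.integral_pos (by linarith) p1)
  rw [integral_sub hf.integrable (integrable_const _)] at i1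
  simp only [integral_const, probReal_univ, smul_eq_mul, one_mul] at i1
  norm_num at i1
  linarith

/-- at a fixed distance from the critical point the wall noise is visible -/
theorem lower_pinned {θ : ℝ} (hθ : 0 < θ) : ∃ c ν0 : ℝ, 0 < c ∧ ∀ ν : ℝ, ν0 ≤ ν → ∀ l : ℤ,
    (l : ℝ) = ν ^ 3 → ∀ α : ℝ, 0 < α → θ ≤ 1 / 2 - α →
      c * l ≤ ∫ e, (T α⁻¹ 1 l e - T α⁻¹ 1 l (rs e)) ^ 2 ∂mu := by
  obtain ⟨x, x0, x1, x2⟩ : ∃ x : ℝ, 0 < x ∧ x ≤ 1 / 16 ∧ 2 * x ≤ θ :=
    ⟨min (1 / 16) (θ / 2), by positivity, min_le_left _ _, by linarith [min_le_right (1 / 16) (θ / 2)]⟩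
  have t1 : 0 < 2 / x := by positivity
  have t2 : 0 < (Real.exp 104 + 3 + 2 / x) / x ^ 2 := by positivity
  refine ⟨(x / 8) ^ 2 / 3, 8 + 2 / x + (Real.exp 104 + 3 + 2 / x) / x ^ 2, by positivity,
    fun ν hν l hl α α0 hα => ?_⟩
  have ν8 : 8 ≤ ν := by linarith
  have l1 : ν ^ 2 ≤ l := by rw [hl]; nlinarith [sq_nonneg ν]
  have l0 : (1 : ℝ) ≤ l := by nlinarith
  have l0' : 1 ≤ l := by exact_mod_cast l0
  set r := √(l : ℝ) with hr
  have r2 : r ^ 2 = l := Real.sq_sqrt (by linarith)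
  have r1 : ν ≤ r := Real.le_sqrt_of_sq_le l1
  have r0 : 0 < r := by linarith
  have hκ : 0 < 1 / r := by positivity
  have key := lr_bound (s := α⁻¹) hκ l0' (by rw [← r2]; field_simp; exact le_rfl)
  have q1 := q_bounds (x := x) (by rw [abs_of_pos x0]; linarith)
  have q2 := q_bounds (x := 2 * x) (by rw [abs_of_pos (by positivity)]; linarith)
  have s1 : q (2 * x) ≤ α⁻¹ := by
    have : α⁻¹ = q (1 / 2 - α) := by simp [q]
    rw [this]
    exact q_mono (by linarith) (by linarith)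
  have κ1 : 1 / r ≤ x / 2 := by
    have : 2 / x ≤ r := by linarith
    rw [div_le_iff₀ x0] at this
    rw [div_le_iff₀ r0]
    linarith
  have s2 : q x ≤ α⁻¹ / (1 + 1 / r) := by
    rw [le_div_iff₀ (by linarith)]
    have a1 : q x * (1 + 1 / r) ≤ (2 + 4 * x + 11 * x ^ 2) * (1 + x / 2) := by
      have := q1.1
      gcongr
      exact q1.2
    nlinarith [q2.1, mul_pos x0 x0]
  have s3 : α⁻¹ / (1 + 1 / r) + 1 / r ≤ α⁻¹ := by
    have a1 : 2 ≤ α⁻¹ / (1 + 1 / r) := by linarith [q1.1]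
    have a2 : α⁻¹ = α⁻¹ / (1 + 1 / r) * (1 + 1 / r) := by field_simp
    nlinarith
  have hc := convexOn_mean l0'
  set g := fun s => ∫ e, T s 1 l e ∂mu with hg
  have m1 : 4 * (l : ℝ) + 2 * x ^ 2 * l - 3 - 2 / x ≤ g (q x) := mean_lower x0 x1 l0'
  have m2 : g 2 ≤ 4 * (l : ℝ) + Real.exp 104 * ν := mean_upper ν8 l0' hl
  have m3 : x ^ 2 * l ≤ g (q x) - g 2 := by
    have a1 : (Real.exp 104 + 3 + 2 / x) / x ^ 2 ≤ ν := by linarith
    rw [div_le_iff₀ (by positivity)] at a1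
    have a2 : (Real.exp 104 + 3 + 2 / x) * ν ≤ ν * x ^ 2 * ν := by gcongr
    have a3 : x ^ 2 * ν ^ 2 ≤ x ^ 2 * l := by gcongr
    have a4 : (3 + 2 / x) * 1 ≤ (3 + 2 / x) * ν := by gcongr; linarith
    nlinarith
  have u0 : 2 < q x := by linarith [q1.1]
  have u1 : α⁻¹ / (1 + 1 / r) < α⁻¹ := by linarith
  have sl1 : (g (q x) - g 2) / (q x - 2) ≤
      (g (α⁻¹ / (1 + 1 / r)) - g 2) / (α⁻¹ / (1 + 1 / r) - 2) :=
    hc.secant_mono (Set.mem_univ _) (Set.mem_univ _) (Set.mem_univ _) u0.ne' (by linarith) s2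
  have sl2 := hc.slope_mono_adjacent (Set.mem_univ 2) (Set.mem_univ α⁻¹)
    (show 2 < α⁻¹ / (1 + 1 / r) by linarith) u1
  have sl3 : x * l / 8 ≤ (g (q x) - g 2) / (q x - 2) := by
    rw [le_div_iff₀ (by linarith)]
    have a1 : q x - 2 ≤ 8 * x := by nlinarith [q1.2]
    have a2 : x * l / 8 * (q x - 2) ≤ x * l / 8 * (8 * x) := by gcongr
    nlinarith
  have sl4 := (sl3.trans sl1).trans sl2
  rw [le_div_iff₀ (by linarith)] at sl4
  have sl5 : x / 8 * r ≤ g α⁻¹ - g (α⁻¹ / (1 + 1 / r)) := by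
    refine le_trans ?_ sl4
    calc x / 8 * r = x * l / 8 * (1 / r) := by rw [← r2]; field_simp
      _ ≤ _ := by gcongr; linarith
  have sl6 := pow_le_pow_left₀ (by positivity) sl5 2
  rw [mul_pow, r2] at sl6
  have := sl6.trans key
  linarith

/-- the wall noise is invisible exactly when the wall is asymptotically not pinning -/
theorem exact_range (α : ℕ → ℝ) (hα : ∀ n, 0 < α n) :
    Tendsto (fun n : ℕ => (∫ e, (T (α n)⁻¹ 1 n e - T (α n)⁻¹ 1 n (rs e)) ^ 2 ∂mu) /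
      (max (1 / 2 - α n) 0 * n + (n : ℝ) ^ ((2 : ℝ) / 3))) atTop (𝓝 0) ↔
    Tendsto (fun n : ℕ => max (1 / 2 - α n) 0) atTop (𝓝 0) := by
  have hev : ∀ ν0 : ℝ, ∀ᶠ n : ℕ in atTop, ν0 ≤ (n : ℝ) ^ ((1 : ℝ) / 3) := fun ν0 =>
    ((tendsto_rpow_atTop (by norm_num)).comp tendsto_natCast_atTop_atTop).eventually_ge_atTop ν0
  have e3 : ∀ n : ℕ, ((n : ℤ) : ℝ) = ((n : ℝ) ^ ((1 : ℝ) / 3)) ^ 3 := fun n => by
    rw [← Real.rpow_natCast, ← Real.rpow_mul (Nat.cast_nonneg n)]
    norm_num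
  have e2 : ∀ n : ℕ, (n : ℝ) ^ ((2 : ℝ) / 3) = ((n : ℝ) ^ ((1 : ℝ) / 3)) ^ 2 := fun n => by
    rw [← Real.rpow_natCast, ← Real.rpow_mul (Nat.cast_nonneg n)]
    norm_num
  have hpos : ∀ n : ℕ, 1 ≤ (n : ℝ) ^ ((1 : ℝ) / 3) →
      0 < max (1 / 2 - α n) 0 * n + (n : ℝ) ^ ((2 : ℝ) / 3) := fun n hn => by
    rw [e2]
    have : 0 ≤ max (1 / 2 - α n) 0 * n := mul_nonneg (le_max_right _ _) (Nat.cast_nonneg n)
    positivity
  constructor
  · intro h
    refine tendsto_order.2 ⟨fun a ha => Eventually.of_forall fun n =>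
      ha.trans_le (le_max_right _ _), fun θ hθ => ?_⟩
    obtain ⟨c, ν0, hc, hL⟩ := lower_pinned hθ
    filter_upwards [hev ν0, hev 1, h.eventually_lt_const (half_pos hc)] with n h1 h2 h3
    by_contra hcon
    have h4 : θ ≤ 1 / 2 - α n := by
      rcases le_max_iff.1 (not_lt.1 hcon) with h | h
      · exact h
      · linarith
    have h5 := hL _ h1 n (e3 n) (α n) (hα n) h4
    rw [div_lt_iff₀ (hpos n h2), e2] at h3
    have h6 : max (1 / 2 - α n) 0 ≤ 1 := max_le (by linarith [hα n]) zero_le_one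
    have h7 := e3 n
    push_cast at h5 h7
    have h8 : ((n : ℝ) ^ ((1 : ℝ) / 3)) ^ 2 ≤ n :=
      (pow_le_pow_right₀ h2 (by norm_num)).trans h7.ge
    have h9 : max (1 / 2 - α n) 0 * n ≤ 1 * n := by gcongr
    nlinarith
  · intro h
    refine tendsto_order.2 ⟨fun a ha => Eventually.of_forall fun n => ha.trans_le
      (div_nonneg (integral_nonneg fun _ => sq_nonneg _) (add_nonneg
        (mul_nonneg (le_max_right _ _) (Nat.cast_nonneg n)) (by positivity))), fun η hη => ?_⟩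
    obtain ⟨θ0, ν0, h0, hU⟩ := upper_all (half_pos hη)
    filter_upwards [hev ν0, hev 1, h.eventually_lt_const h0] with n h1 h2 h3
    have h5 := hU _ h1 n (e3 n) (α n) (hα n) ((le_max_left _ _).trans h3.le)
    have h6 := hpos n h2
    rw [div_lt_iff₀ h6]
    rw [← e2] at h5
    push_cast at h5
    nlinarith

end Pool.Agent.P.MP_9957ef_pr
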