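import Pool.Agent.P.MP_9957ef_pr.Tails
import Pool.Agent.P.MP_9957ef_pr.UtInc
import Pool.Agent.P.MP_9957ef_pr.Yt
import Pool.Agent.P.MP_9957ef_pr.Xi
import Pool.Agent.P.MP_9957ef_pr.Slab
import Pool.Agent.P.MP_9957ef_pr.Multi
import Pool.Agent.P.MP_9957ef_pr.Stat
import Pool.Agent.P.MP_9957ef_pr.Touch
import Pool.Agent.P.MP_9957ef_pr.Var
import Pool.Agent.P.MP_9957ef_pr.Point

/-! Resampling the wall outside the critical window: upper bounds. -/

set_option autoImplicit false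

noncomputable section

open MeasureTheory ProbabilityTheory Finset

namespace Pool.Agent.P.MP_9957ef_pr

lemma stat' : S_STAT := stat (xi (yt gm tt) (ut gm tt)) multi

lemma touch' : S_TOUCH := touch slab gm

lemma tail_shift {X : Env → ℝ} {K B b : ℝ} (h : Tail X K B) (hb : 0 ≤ b)
    (hB : B ≤ Real.exp b) : Tail (fun e => X e - b * K) K 1 := by
  intro t ht
  refine le_trans (measureReal_mono fun e he => ?_) ((h (t + b) (by linarith)).trans ?_)
  · have h1 : t * K ≤ X e - b * K := he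
    show (t + b) * K ≤ X e
    linarith
  · calc B * Real.exp (-(t + b)) ≤ Real.exp b * Real.exp (-(t + b)) := by gcongr
      _ = 1 * Real.exp (-t) := by rw [← Real.exp_add, one_mul]; congr 1; ring

/-- wall weight of the optimal path in the pinned phase -/
lemma vdP {θ : ℝ} (θ0 : 0 < θ) (θ1 : θ ≤ 1 / 24) {a b : ℤ} (hab : a ≤ b)
    (h1 : 1 ≤ θ ^ 3 * ((b : ℝ) - a + 1)) :
    Tail (fun e => ∑ i ∈ wall a b, |e i| * iV (T (q θ) a b) i e)
      (4000 * (θ * ((b : ℝ) - a + 1))) 3 := by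
  obtain ⟨ν, hν⟩ : ∃ ν : ℝ, ν = θ⁻¹ := ⟨_, rfl⟩
  obtain ⟨C0, hC0⟩ : ∃ C0 : ℝ, C0 = θ ^ 3 * ((b : ℝ) - a + 1) := ⟨_, rfl⟩
  have ν0 : 0 < ν := by rw [hν]; positivity
  have θν : θ * ν = 1 := by rw [hν]; field_simp
  have ν1 : 24 ≤ ν := by nlinarith
  have e0 : 1 / ν = θ := by rw [hν]; simp
  have hl1 : 1 ≤ b - a + 1 := by omega
  have hl2 : ((b - a + 1 : ℤ) : ℝ) ≤ C0 * ν ^ 3 := by
    push_cast
    rw [hC0, mul_right_comm, ← mul_pow, θν]
    simp
  have e1 : θ * ((b : ℝ) - a + 1) = C0 * ν ^ 2 := by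
    rw [hC0, hν]; field_simp
  rw [← hC0] at h1
  have hmp := mp_reindex (σ := fun z : Site => z + (a - 1, a - 1)) (add_left_injective _)
  have t1 := tail_shift (tails_upper (C0 := C0) (M := 3) (ν := ν) (x := 2 * θ) (by norm_num)
    (by linarith) (by rw [abs_of_pos (by positivity), ← e0]; apply le_of_eq; ring) hl1 hl2)
    (b := 7272 * C0) (by positivity) (le_of_eq (by congr 1; ring))
  have t2 := tail_shift (tails_lower (C0 := C0) (M := 1) (ν := ν) le_rfl (by linarith) hl1 hl2)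
    (b := 46 * C0) (by positivity) (by
      have a1 : Real.exp (46 * C0) = Real.exp (1 + 44 * C0 * 1 ^ 4) * Real.exp (2 * C0 - 1) := by
        rw [← Real.exp_add]; congr 1; ring
      have a2 : 2 ≤ Real.exp (2 * C0 - 1) := by linarith [Real.add_one_le_exp (2 * C0 - 1)]
      have a3 : 1 ≤ Real.exp (1 + 44 * C0 * 1 ^ 4) := Real.one_le_exp (by positivity)
      rw [a1]
      nlinarith)
  rw [e0] at t2
  have t3 := (t1.add t2).comp hmp
  intro t ht
  rcases le_or_gt 1 t with h | h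
  · refine le_trans (measureReal_mono fun e he => ?_) ((t3 t ht).trans ?_)
    · have a1 : t * (4000 * (θ * ((b : ℝ) - a + 1))) ≤
        ∑ i ∈ wall a b, |e i| * iV (T (q θ) a b) i e := he
      have q1 := (q_sub (x := θ) (y := 2 * θ) (by linarith)
        (by rw [abs_of_pos θ0]; linarith) (by rw [abs_of_pos (by positivity)]; linarith)).1
      have s1 := T_subgrad (q_pos (x := θ) (by linarith)).le
        (by linarith : q θ ≤ q (2 * θ)) a b e
      have s2 := point_Y_nonneg (T (q θ) a b) (wall a b) e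
      have s3 := mul_le_mul_of_nonneg_right q1 s2
      simp only [Set.mem_ofPred_eq, ← tails_shift e]
      rw [e1] at a1
      have a2 := mul_le_mul_of_nonneg_left a1 θ0.le
      have a3 : θ * (t * (4000 * (C0 * ν ^ 2))) = 4000 * (t * (C0 * ν)) := by
        rw [show θ * (t * (4000 * (C0 * ν ^ 2))) = 4000 * (t * (C0 * ν)) * (θ * ν) by ring, θν,
          mul_one]
      have a4 : C0 * ν ≤ t * (C0 * ν) := le_mul_of_one_le_left (by positivity) h
      have a5 : t * ν ≤ t * (C0 * ν) := by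
        gcongr; exact le_mul_of_one_le_left ν0.le h1
      have a6 : 0 ≤ t * ν := by positivity
      nlinarith
    · gcongr; norm_num
  · refine measureReal_le_one.trans ?_
    have a1 : Real.exp t ≤ 3 := (Real.exp_le_exp.2 h.le).trans (by
      linarith [Real.exp_one_lt_d9])
    have a2 : Real.exp (-t) * Real.exp t = 1 := by rw [← Real.exp_add]; simp
    nlinarith [Real.exp_pos (-t)]

/-- the overlap bound in the pinned phase -/
lemma overlapP {η : ℝ} (hη : 0 < η) : ∃ K θ0 : ℝ, 1 ≤ K ∧ 0 < θ0 ∧ θ0 ≤ 1 / 24 ∧ ∀ θ : ℝ, 0 < θ →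
    θ ≤ θ0 → ∀ l : ℤ, K ≤ θ ^ 3 * l → ∀ R ⊆ wall 1 l,
      ∫ e, ∑ i ∈ R, cE (R : Set Site) (iV (T (q θ) 1 l) i) e ^ 2 ∂mu ≤ η * (θ * l) := by
  obtain ⟨κ, κ0, hκ⟩ : ∃ κ : ℝ, 0 < κ ∧ κ = η / (30 * 4000 ^ 2) := ⟨_, by positivity, rfl⟩
  obtain ⟨CT, θT, CT0, θT0, hT⟩ := touch' (η * κ / 10) (by positivity)
  obtain ⟨θS, θS0, hS⟩ := stat' (η / 30) (by positivity)
  have t1 : 0 < 10 / η := by positivity
  have t2 : 0 < 120000 * (CT + 3) / η := by positivity
  refine ⟨CT + 3 + 10 / η + 120000 * (CT + 3) / η, min (1 / 24) (min θT θS), by linarith,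
    by positivity, min_le_left _ _, fun θ θ0 hθ l hl R hR => ?_⟩
  have θ3 : θ ≤ 1 / 24 := hθ.trans (min_le_left _ _)
  have θ1 : θ ≤ θT := hθ.trans ((min_le_right _ _).trans (min_le_left _ _))
  have θ2 : θ ≤ θS := hθ.trans ((min_le_right _ _).trans (min_le_right _ _))
  have θp : 0 < θ ^ 3 := by positivity
  have θ4 : θ ^ 3 ≤ θ := by nlinarith [sq_nonneg θ, mul_pos θ0 θ0]
  have s0 : 0 < q θ := q_pos (by linarith)
  obtain ⟨n, n1, n2⟩ : ∃ n : ℤ, CT + 1 ≤ θ ^ 3 * n ∧ θ ^ 3 * (n + 1) ≤ CT + 3 := by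
    refine ⟨⌈(CT + 1) / θ ^ 3⌉, ?_, ?_⟩
    · have := Int.le_ceil ((CT + 1) / θ ^ 3)
      rwa [div_le_iff₀' θp] at this
    · have := (Int.ceil_lt_add_one ((CT + 1) / θ ^ 3)).le
      have h2 := mul_le_mul_of_nonneg_left this θp.le
      rw [mul_add, mul_div_cancel₀ _ θp.ne'] at h2
      linarith
  have n0 : 1 ≤ n := by
    have : (0 : ℝ) < n := (mul_pos_iff_of_pos_left θp).1 (by linarith)
    exact_mod_cast this
  have nl : n + 1 ≤ l := by
    have : (n : ℝ) + 1 ≤ l := le_of_mul_le_mul_left (by linarith) θp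
    exact_mod_cast this
  have l0 : (1 : ℝ) ≤ l := by exact_mod_cast (by omega : 1 ≤ l)
  have n0' : (0 : ℝ) < n := by exact_mod_cast n0
  have hK : 0 < 4000 * (θ * ((n : ℝ) + 1)) := by positivity
  have w1 := point_window s0 hK (by
    have := vdP θ0 θ3 (a := 1) (b := n + 1) (by omega) (by push_cast; nlinarith)
    simpa using this)
  have w2 := point_window s0 hK (by
    have := vdP θ0 θ3 (a := l - n) (b := l) (by omega) (by push_cast; nlinarith)
    simpa using this)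
  have hf := point_pg_T (q θ) 1 l
  have w3 := point_Y_sq hf (K := 4000 * (θ * l)) (by positivity) (by
    have := vdP θ0 θ3 (a := 1) (b := l) (by omega) (by push_cast; linarith)
    simpa using this)
  obtain ⟨c, hc1, hc2, hS⟩ := hS θ θ0 θ2 l (by omega)
  have hS := hS R fun i hi => by
    obtain ⟨a1, a2, a3⟩ := point_mem_wall.1 (hR hi)
    exact point_mem_wall.2 ⟨a1, a2, by omega⟩
  obtain ⟨Bad, mB, pB, dB⟩ : ∃ Bad : Set Env, MeasurableSet Bad ∧
      mu.real Bad ≤ 2 * (η * κ / 10) ∧ ∀ i ∈ R.filter fun i => n < i.1 ∧ i.1 ≤ l - n,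
        ∀ e, e ∉ Bad → iV (T (q θ) 1 l) i e ≤ iV (F c (q (-θ)) fun _ => q θ) i e := by
    refine ⟨_ ∪ _, (measurableSet_le (point_pg_F _ _ _).1 (point_pg_F _ _ _).1).union
      (measurableSet_le (point_pg_F _ _ _).1 (point_pg_F _ _ _).1),
      (measureReal_union_le _ _).trans ((add_le_add
        (hT θ θ0 θ1 c 1 n le_rfl n0 (by omega) (by push_cast; linarith))
        (hT θ θ0 θ1 c (l - n + 1) l (by omega) (by omega) (by omega)
          (by push_cast; linarith))).trans_eq (by ring)), fun i hi e he => ?_⟩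
    obtain ⟨a0, a1, a2⟩ := mem_filter.1 hi
    obtain ⟨u, v⟩ := i
    obtain rfl : u = v := (point_mem_wall.1 (hR a0)).1
    simp only [Set.mem_union, Set.mem_ofPred_eq, not_or, not_le] at he
    exact point_iV_le (point_det (q_pos (by linarith)).le s0.le le_rfl
      (q_pos (by linarith)).le hc1 a1 a2 (by omega) e he.1 he.2)
  have main := point_abs (κ := κ / (θ * l)) (filter_subset _ _) s0 hf (point_pg_F _ _ _)
    (fun i hi => hinge_T s0 (hR hi)) mB dB (by positivity)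
  have e1 : ∫ e, ∑ i ∈ R \ R.filter fun i => n < i.1 ∧ i.1 ≤ l - n, iV (T (q θ) 1 l) i e ∂mu ≤
      2 + 3 * (4000 * (θ * ((n : ℝ) + 1))) + 3 * (4000 * (θ * ((n : ℝ) + 1))) := by
    have i1 := (pg_sum (wall 1 (min l (n + 1))) fun i _ =>
      (point_pg_T (q θ) 1 (min l (n + 1))).iV i).integrable
    have i2 := (pg_sum (wall (max 1 (l - n)) l) fun i _ =>
      (point_pg_T (q θ) (max 1 (l - n)) l).iV i).integrable
    have i0 : Integrable (fun _ : Env => (2 : ℝ)) mu := integrable_const _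
    refine (integral_mono (pg_sum _ fun i _ => hf.iV i).integrable ((i0.add i1).add i2)
      (point_ends (n := n) s0.le fun i hi => ?_)).trans ?_
    · obtain ⟨a1, a2⟩ := mem_sdiff.1 hi
      refine ⟨hR a1, ?_⟩
      by_contra hcon
      exact a2 (mem_filter.2 ⟨a1, by omega⟩)
    · rw [integral_add' (i0.add i1) i2, integral_add' i0 i1]
      simp only [integral_const, probReal_univ, smul_eq_mul, one_mul, min_eq_right nl,
        max_eq_right (show 1 ≤ l - n by omega)]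
      linarith
  have e2 : ∫ e, (∑ i ∈ R, |e i| * iV (T (q θ) 1 l) i e) ^ 2 ∂mu ≤
      2 * 3 * (4000 * (θ * l)) ^ 2 := by
    refine le_trans (integral_mono ((point_pg_Y hf R).pow 2).integrable
      ((point_pg_Y hf (wall 1 l)).pow 2).integrable fun e => ?_) w3
    exact pow_le_pow_left₀ (point_Y_nonneg _ _ e) (sum_le_sum_of_subset_of_nonneg hR
      fun i _ _ => mul_nonneg (abs_nonneg _) (point_iV_nonneg _ i e)) 2
  have f1 : 2 ≤ η / 5 * (θ * l) := by
    have a1 : 10 / η ≤ θ * l := by nlinarith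
    rw [div_le_iff₀ hη] at a1
    linarith
  have f2 : 3 * (4000 * (θ * ((n : ℝ) + 1))) ≤ η / 10 * (θ * l) := by
    have a1 : 120000 * (CT + 3) / η ≤ θ ^ 3 * l := by linarith
    rw [div_le_iff₀ hη] at a1
    have a2 : 120000 * ((n : ℝ) + 1) ≤ l * η := le_of_mul_le_mul_left (by nlinarith) θp
    nlinarith [mul_le_mul_of_nonneg_left a2 θ0.le]
  have f3 : η / 30 * θ * c ≤ η / 10 * (θ * l) := by
    have g1 : (θ ^ 3)⁻¹ ≤ l := by
      rw [inv_le_iff_one_le_mul₀' θp]; linarith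
    have g2 : (c : ℝ) ≤ 3 * l := by linarith
    calc _ ≤ η / 30 * θ * (3 * l) := by gcongr
      _ = _ := by ring
  have f4 : (κ / (θ * l))⁻¹ * mu.real Bad ≤ η / 5 * (θ * l) := by
    calc _ ≤ (κ / (θ * l))⁻¹ * (2 * (η * κ / 10)) := by gcongr
      _ = _ := by field_simp; ring
  have f5 : κ / (θ * l) * ∫ e, (∑ i ∈ R, |e i| * iV (T (q θ) 1 l) i e) ^ 2 ∂mu ≤
      η / 5 * (θ * l) := by
    calc _ ≤ κ / (θ * l) * (2 * 3 * (4000 * (θ * l)) ^ 2) := by gcongr
      _ = _ := by rw [hκ]; field_simp; ring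
  linarith

/-- the pinned phase -/
lemma pointP {η : ℝ} (hη : 0 < η) : ∃ K θ0 : ℝ, 1 ≤ K ∧ 0 < θ0 ∧ ∀ θ : ℝ, 0 < θ →
    θ ≤ θ0 → ∀ l : ℤ, K ≤ θ ^ 3 * l →
      ∫ e, (T (q θ) 1 l e - T (q θ) 1 l (rs e)) ^ 2 ∂mu ≤ η * (θ * l) := by
  obtain ⟨C, C_0, hV⟩ := var (η / (8 * (3 * 4000))) (by positivity)
  obtain ⟨K, θ0, hK, h0, h1, hO⟩ := overlapP (η := η / (8 * C)) (by positivity)
  refine ⟨K, θ0, hK, h0, fun θ θp hθ l hl => ?_⟩
  have θ3 : θ ≤ 1 / 24 := hθ.trans h1
  have s0 : 0 < q θ := q_pos (by linarith)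
  have s4 : q θ ≤ 4 := (q_mono (by linarith : θ ≤ 1 / 4) (by norm_num)).trans_eq (by norm_num [q])
  have l0 : (0 : ℝ) < l := (mul_pos_iff_of_pos_left (pow_pos θp 3)).1 (by linarith)
  have l1 : 1 ≤ l := by exact_mod_cast l0
  have hf := point_pg_T (q θ) 1 l
  have k1 := hV (q θ) _ _ _ (wall 1 l) s0 s4 hf (fun i hi => hinge_T s0 hi)
    (point_Y_int hf (K := 4000 * (θ * l)) (by positivity) (by
      have := vdP θp θ3 (a := 1) (b := l) l1 (by push_cast; linarith)
      simpa using this))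
    (hO θ θp hθ l hl)
  refine (point_rs _).trans ((mul_le_mul_of_nonneg_left k1 (by norm_num)).trans_eq ?_)
  field_simp
  ring

lemma sum_ends_le {l : ℤ} (R : Finset Site) {φ : Site → ℝ} (hφ : ∀ i, 0 ≤ φ i) :
    ∑ i ∈ R, (if i ∈ ({(1, 1), (l, l)} : Finset Site) then φ i else 0) ≤ φ (1, 1) + φ (l, l) := by
  rw [← sum_filter]
  refine (sum_le_sum_of_subset_of_nonneg (fun i hi => (mem_filter.1 hi).2)
    fun i _ _ => hφ i).trans ?_
  by_cases h : ((1, 1) : Site) = (l, l)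
  · rw [← h]; simpa using hφ _
  · rw [sum_pair h]

lemma iV_mono {s s' : ℝ} (hs : 0 ≤ s) (hss : s ≤ s') {l : ℤ} {i : Site} (hi : i ∈ wall 1 l)
    (h : i ∉ ({(1, 1), (l, l)} : Finset Site)) (e : Env) :
    iV (T s 1 l) i e ≤ iV (T s' 1 l) i e := by
  obtain ⟨u, v⟩ := i
  obtain ⟨b1, b2, b3⟩ := point_mem_wall.1 hi
  simp only at b1 b2 b3
  subst b1
  simp only [mem_insert, mem_singleton, Prod.mk.injEq, and_self, not_or] at h
  exact point_iV_le (gap_mono hs hss le_rfl (by omega) (by omega) le_rfl e)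

lemma integral_abs_coord (z : Site) : ∫ e : Env, |e z| ∂mu = 1 := by
  rw [← ex_integral_abs, ← (mp_eval z).map_eq,
    integral_map (mp_eval z).measurable.aemeasurable continuous_abs.aestronglyMeasurable]

/-- the unpinned phase -/
lemma pointN {η : ℝ} (hη : 0 < η) : ∃ ν0 : ℝ, ∀ ν : ℝ, ν0 ≤ ν → ∀ s : ℝ, 0 < s → s ≤ 2 →
    ∀ l : ℤ, 1 ≤ l → (l : ℝ) ≤ ν ^ 3 →
      ∫ e, (T s 1 l e - T s 1 l (rs e)) ^ 2 ∂mu ≤ η * ν ^ 2 := by
  obtain ⟨A, B, ν1, hA, hB, hν1, hD⟩ := vd 1 one_pos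
  have hB0 : 0 < B := by linarith
  obtain ⟨C, C_0, hV⟩ := var (η / (8 * (A * B + 2))) (by positivity)
  obtain ⟨ν2, hO⟩ := point_overlap stat' touch' vd one_pos (η := η / (16 * C)) (by positivity)
  refine ⟨max ν2 (ν1 + 32 * C / η), fun ν hν s s0 s2 l hl hl' => ?_⟩
  have t0 : 0 < 32 * C / η := by positivity
  have h1 : ν1 + 32 * C / η ≤ ν := (le_max_right _ _).trans hν
  have ν0 : 1 ≤ ν := by linarith
  have ν3 : 1 ≤ ν ^ 2 := one_le_pow₀ ν0
  have q0 : q 0 = 2 := by norm_num [q]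
  have hx : |(0 : ℝ)| ≤ 1 / ν := by rw [abs_zero]; positivity
  have hf := point_pg_T s 1 l
  have hg := point_pg_T 2 1 l
  have d1 := point_Y_int (point_pg_T (q 0) 1 l) (by positivity)
    (hD ν (by linarith) 0 hx 1 l hl (by push_cast; linarith))
  have o1 := hO ν ((le_max_left _ _).trans hν) 0 hx l hl (by linarith)
  rw [q0] at d1 o1
  have d2 : ∫ e, ∑ i ∈ wall 1 l, |e i| * iV (T s 1 l) i e ∂mu ≤ (A * B + 2) * ν ^ 2 := by
    have i1 := (point_pg_Y hg (wall 1 l)).integrable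
    have i2 := (pg_coord (1, 1)).abs.integrable
    have i3 := (pg_coord (l, l)).abs.integrable
    refine (integral_mono (point_pg_Y hf _).integrable (i1.add (i2.add i3)) fun e => ?_).trans ?_
    · simp only [Pi.add_apply]
      refine le_trans ?_ (add_le_add_right (sum_ends_le (l := l) (wall 1 l)
        (φ := fun i => |e i|) fun i => abs_nonneg _) _)
      rw [← sum_add_distrib]
      refine sum_le_sum fun i hi => ?_
      have a1 := mul_nonneg (abs_nonneg (e i)) (point_iV_nonneg (T 2 1 l) i e)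
      split_ifs with h
      · linarith [mul_le_of_le_one_right (abs_nonneg (e i)) (point_iV_le_one (T s 1 l) i e)]
      · linarith [mul_le_mul_of_nonneg_left (iV_mono s0.le s2 hi h e) (abs_nonneg (e i))]
    · rw [integral_add' i1 (i2.add i3), integral_add' i2 i3, integral_abs_coord,
        integral_abs_coord]
      nlinarith
  have o2 : ∀ R ⊆ wall 1 l, ∫ e, ∑ i ∈ R, cE (R : Set Site) (iV (T s 1 l) i) e ^ 2 ∂mu ≤
      η / (8 * C) * ν ^ 2 := by
    intro R hR
    have i1 := (pg_sum R fun i _ => ((hg.iV i).cE (R : Set Site)).pow 2).integrable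
    have i0 : Integrable (fun _ : Env => (2 : ℝ)) mu := integrable_const _
    refine (integral_mono (pg_sum R fun i _ => ((hf.iV i).cE (R : Set Site)).pow 2).integrable
      (i1.add i0) fun e => ?_).trans ?_
    · simp only [Pi.add_apply]
      refine le_trans ?_ (add_le_add_right ((sum_ends_le (l := l) R
        (φ := fun _ => (1 : ℝ)) fun i => zero_le_one).trans_eq one_add_one_eq_two) _)
      rw [← sum_add_distrib]
      refine sum_le_sum fun i hi => ?_
      have a0 := cE_nonneg (R : Set Site) (point_iV_nonneg (T s 1 l) i) e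
      split_ifs with h
      · have a1 := cE_mono (R : Set Site) (hf.iV i) (pg_const 1) (point_iV_le_one _ i) e
        rw [cE_const] at a1
        nlinarith [sq_nonneg (cE (R : Set Site) (iV (T 2 1 l) i) e)]
      · have a1 := cE_mono (R : Set Site) (hf.iV i) (hg.iV i) (iV_mono s0.le s2 (hR hi) h) e
        nlinarith
    · rw [integral_add' i1 i0]
      simp only [integral_const, probReal_univ, smul_eq_mul, one_mul]
      have a1 := o1 R hR
      have a2 : 2 ≤ η / (16 * C) * ν ^ 2 := by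
        have b1 : 32 * C / η ≤ ν ^ 2 := by nlinarith
        rw [div_le_iff₀ hη] at b1
        rw [div_mul_eq_mul_div, le_div_iff₀ (by positivity)]
        linarith
      have a3 : η / (8 * C) * ν ^ 2 = η / (16 * C) * ν ^ 2 + η / (16 * C) * ν ^ 2 := by
        field_simp; ring
      linarith
  have k1 := hV s _ _ _ (wall 1 l) s0 (by linarith) hf (fun i hi => hinge_T s0 hi) d2 o2
  refine (point_rs _).trans ((mul_le_mul_of_nonneg_left k1 (by norm_num)).trans_eq ?_)
  field_simp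
  ring

/-- all three phases -/
theorem upper_all {η : ℝ} (hη : 0 < η) : ∃ θ0 ν0 : ℝ, 0 < θ0 ∧ ∀ ν : ℝ, ν0 ≤ ν → ∀ l : ℤ,
    (l : ℝ) = ν ^ 3 → ∀ α : ℝ, 0 < α → 1 / 2 - α ≤ θ0 →
      ∫ e, (T α⁻¹ 1 l e - T α⁻¹ 1 l (rs e)) ^ 2 ∂mu ≤ η * (max (1 / 2 - α) 0 * l + ν ^ 2) := by
  obtain ⟨K, θ0, hK, h0, hP⟩ := pointP hη
  obtain ⟨ν1, hN⟩ := pointN hη
  obtain ⟨ν2, hW⟩ := point var stat' touch' vd K η (by linarith) hη
  refine ⟨θ0, max 1 (max ν1 ν2), h0, fun ν hν l hl α α0 hα => ?_⟩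
  have ν0 : 1 ≤ ν := (le_max_left _ _).trans hν
  have l1 : (1 : ℝ) ≤ l := hl ▸ one_le_pow₀ ν0
  have l1' : 1 ≤ l := by exact_mod_cast l1
  have m0 : 0 ≤ max (1 / 2 - α) 0 * l := mul_nonneg (le_max_right _ _) (by linarith)
  have hq : α⁻¹ = q (1 / 2 - α) := by simp [q]
  rcases le_or_gt (1 / 2 - α) 0 with h | h
  · refine (hN ν ((le_max_left _ _).trans ((le_max_right _ _).trans hν)) _ (by positivity) ?_ l
      l1' hl.le).trans (by gcongr; linarith)
    rw [inv_le_comm₀ α0 two_pos]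
    linarith
  rw [hq]
  rcases le_or_gt K ((1 / 2 - α) ^ 3 * l) with h2 | h2
  · refine (hP _ h hα l h2).trans ?_
    rw [max_eq_left h.le]
    gcongr
    linarith [sq_nonneg ν]
  · refine (hW ν ((le_max_right _ _).trans ((le_max_right _ _).trans hν)) _ ?_ 1 l l1' ?_).trans
      (by gcongr; linarith)
    · rw [abs_of_pos h, le_div_iff₀ (by linarith)]
      rw [hl, ← mul_pow] at h2
      by_contra hc
      have a1 : 1 ≤ (1 / 2 - α) * ν := by linarith
      have a2 : (1 / 2 - α) * ν ≤ ((1 / 2 - α) * ν) ^ 3 := le_self_pow₀ a1 three_ne_zero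
      linarith
    · push_cast
      nlinarith

end Pool.Agent.P.MP_9957ef_pr
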